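import Pool.Agent.R14.TII.CritDefs

/-!
A criterion for all odd `m`: if outside the linking subgroup `U` the set `S` is `U`-invariant
(for instance if `U` is the whole group), then the statement of Q1 holds for `S`.
-/

namespace Pool.Agent.Results.MP_810fd7_co.Criterion

open Pool.Agent.R14.TII

theorem result (m : ℕ) (hm : Odd m)
    (S : Set (ZMod (2 * m))) (hS : ∀ x ∈ S, -x ∈ S) (h0 : (0 : ZMod (2 * m)) ∉ S)
    (hnu : NontriviallyUnstable (Cay m S hS h0)) (hII : TypeII m (Cay m S hS h0))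
    (hU : ∀ x, x ∉ LinkSub m S → ∀ y ∈ LinkSub m S, (x ∈ S ↔ x + y ∈ S)) :
    IsoShift m S := by
  have : NeZero (2 * m) := ⟨by obtain ⟨k, hk⟩ := hm; omega⟩
  have h := hyp_of hm hS h0 hnu hII
  refine isoShift_of (h.main (ex_of hS h0 hnu) ?_).2
  intro x hx y hy
  rw [← LinkSub_eq h] at hx hy
  exact hU x hx y hy

end Pool.Agent.Results.MP_810fd7_co.Criterion
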