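import Pool.Agent.R14.TII.Circ
import Pool.Agent.R14.TII.SF2

/-!
Q1 for all odd squarefree `m`: every nontrivially unstable circulant of Type II of
order `2 m` satisfies `Cay(ℤ_{2m}, S) ≅ Cay(ℤ_{2m}, S + m)`.
-/

namespace Pool.Agent.Results.MP_810fd7_co.SquarefreeOrder

open Pool.Agent.R14.TII

theorem result (m : ℕ) (hm : Odd m) (hsq : Squarefree m)
    (S : Set (ZMod (2 * m))) (hS : ∀ x ∈ S, -x ∈ S) (h0 : (0 : ZMod (2 * m)) ∉ S)
    (hnu : NontriviallyUnstable (Cay m S hS h0)) (hII : TypeII m (Cay m S hS h0)) :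
    IsoShift m S := by
  have : NeZero (2 * m) := ⟨by obtain ⟨k, hk⟩ := hm; omega⟩
  have h := hyp_of hm hS h0 hnu hII
  obtain ⟨α, β, h1, hne⟩ := ex_of hS h0 hnu
  have g : h.Good := h.good h1 hne
  have hsq2 : Squarefree (Nat.card (ZMod (2 * m))) := by
    rw [Nat.card_zmod]
    exact (Nat.squarefree_mul (Nat.coprime_two_left.mpr hm)).mpr
      ⟨Nat.prime_two.prime.squarefree, hsq⟩
  exact isoShift_of (main_sf hsq2 g)

end Pool.Agent.Results.MP_810fd7_co.SquarefreeOrder
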