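import Pool.Agent.R14.TII.Circ

/-!
Q1 for `m` a product of two odd primes: every nontrivially unstable circulant of Type II of
order `2 m` satisfies `Cay(ℤ_{2m}, S) ≅ Cay(ℤ_{2m}, S + m)`.
-/

namespace Pool.Agent.R14.TII.Old.TwoPrimes

open Pool.Agent.R14.TII

theorem result (m p q : ℕ) (hm : Odd m) (hp : p.Prime) (hq : q.Prime) (hpq : m = p * q)
    (S : Set (ZMod (2 * m))) (hS : ∀ x ∈ S, -x ∈ S) (h0 : (0 : ZMod (2 * m)) ∉ S)
    (hnu : NontriviallyUnstable (Cay m S hS h0)) (hII : TypeII m (Cay m S hS h0)) :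
    IsoShift m S := by
  have : NeZero (2 * m) := ⟨by obtain ⟨k, hk⟩ := hm; omega⟩
  have h := hyp_of hm hS h0 hnu hII
  exact isoShift_of (h.main_pq (ex_of hS h0 hnu) hp hq (by rw [card_even hm, hpq])).2

end Pool.Agent.R14.TII.Old.TwoPrimes
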